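import Pool.Agent.W2helper37.DP.Stm

/-!
# Project DP, piece DD: `S(D_Ω, D_Ω)` implies `S(D, D)`
-/

set_option autoImplicit false

namespace Pool.Agent.W2helper97.DP

open Set Pool.Agent.H42.Dom Pool.Agent.W2helper37.DP

universe u

/-- finite unions of members of `𝒟 (n, 0), 𝒟 (n, 1), ...` -/
def WW {X : Type u} (𝒟 : ℕ → Set (Set X)) (n : ℕ) : Set (Set X) :=
  {W | ∃ (p : ℕ) (V : ℕ → Set X), (∀ j < p, V j ∈ 𝒟 (Nat.pair n j)) ∧
    W = ⋃ (j : ℕ) (_ : j < p), V j}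

theorem p_dd : P_DD.{u} := by
  intro b X _ h 𝒟 h𝒟
  by_cases hc : ∃ n, ∃ W ∈ WW 𝒟 n, univ ⊆ closure W
  · obtain ⟨n, W, ⟨p, V, hV, rfl⟩, hcl⟩ := hc
    have hsub : ∀ k, {U | ∃ j < p, k = Nat.pair n j ∧ U = V j}.Subsingleton := by
      rintro k U ⟨j, hj, hk, rfl⟩ U' ⟨j', hj', hk', rfl⟩
      have h1 := (Nat.pair_eq_pair.1 (hk.symm.trans hk')).2
      rw [h1]
    refine ⟨fun k => {U | ∃ j < p, k = Nat.pair n j ∧ U = V j}, fun k => ⟨?_, (hsub k).finite,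
      fun _ => hsub k⟩, ?_⟩
    · rintro U ⟨j, hj, rfl, rfl⟩
      exact hV j hj
    · have hd : Dense (⋃ (j : ℕ) (_ : j < p), V j) := fun x => hcl (mem_univ x)
      refine hd.mono ?_
      intro x hx
      simp only [mem_iUnion] at hx
      obtain ⟨j, hj, hx⟩ := hx
      exact ⟨V j, mem_iUnion.2 ⟨Nat.pair n j, j, hj, rfl, rfl⟩, hx⟩
  · push Not at hc
    have hdom : ∀ n, DOm (WW 𝒟 n) := by
      intro n
      refine mk_dom (fun W hW => ⟨?_, hc n W hW⟩) fun F hF hG => ?_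
      · obtain ⟨p, V, hV, rfl⟩ := hW
        exact isOpen_iUnion fun j => isOpen_iUnion fun hj => (h𝒟 _).1 _ (hV j hj)
      · obtain ⟨p, f, -, hf⟩ := hF.fin_param
        have hex : ∀ j : Fin p, ∃ V ∈ 𝒟 (Nat.pair n j), (V ∩ f j).Nonempty := by
          intro j
          have hj := hG (f j) (hf ▸ mem_range_self j)
          obtain ⟨x, hx, V, hV, hxV⟩ :=
            dense_iff_inter_open.1 (h𝒟 (Nat.pair n j)).2 (f j) hj.1 hj.2
          exact ⟨V, hV, x, hxV, hx⟩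
        choose V hV hVf using hex
        refine ⟨⋃ (j : ℕ) (_ : j < p), if hj : j < p then V ⟨j, hj⟩ else ∅,
          ⟨p, fun j => if hj : j < p then V ⟨j, hj⟩ else ∅, ?_, rfl⟩, ?_⟩
        · intro j hj
          simp only [dif_pos hj]
          exact hV ⟨j, hj⟩
        · intro G hGF
          rw [← hf] at hGF
          obtain ⟨j, rfl⟩ := hGF
          obtain ⟨x, hx1, hx2⟩ := hVf j
          refine ⟨x, mem_iUnion₂.2 ⟨j, j.2, ?_⟩, hx2⟩
          rw [dif_pos j.2]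
          exact hx1
    obtain ⟨F', hF', hD⟩ := h (WW 𝒟) hdom
    have hex : ∀ n W, W ∈ F' n → ∃ (p : ℕ) (V : ℕ → Set X), (∀ j < p, V j ∈ 𝒟 (Nat.pair n j)) ∧
        W = ⋃ (j : ℕ) (_ : j < p), V j := fun n W hW => (hF' n).1 hW
    choose! p V hV hW using hex
    refine ⟨fun k => (fun W => V k.unpair.1 W k.unpair.2) ''
      {W | W ∈ F' k.unpair.1 ∧ k.unpair.2 < p k.unpair.1 W}, fun k => ⟨?_, ?_⟩, ?_⟩
    · rintro _ ⟨W, ⟨hW1, hW2⟩, rfl⟩
      have h1 := hV _ _ hW1 _ hW2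
      rwa [Nat.pair_unpair] at h1
    · refine Sm.image ⟨(hF' _).2.1.subset fun W hW => hW.1, fun hb => ?_⟩ _
      exact ((hF' _).2.2 hb).anti fun W hW => hW.1
    · rw [dense_iff_inter_open]
      intro G hG hGne
      obtain ⟨W, hWm, hWG⟩ := hD.2.2.2 {G} (finite_singleton _) (by simp [hG, hGne])
      obtain ⟨x, hxW, hxG⟩ := hWG G rfl
      obtain ⟨n, hn⟩ := mem_iUnion.1 hWm
      rw [hW n W hn] at hxW
      obtain ⟨j, hj, hx⟩ := mem_iUnion₂.1 hxW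
      refine ⟨x, hxG, V n W j, mem_iUnion.2 ⟨Nat.pair n j, W, ?_, ?_⟩, hx⟩
      · simp only [Nat.unpair_pair]
        exact ⟨hn, hj⟩
      · simp only [Nat.unpair_pair]

end Pool.Agent.W2helper97.DP
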